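import Mathlib
import Pool.Agent.MP_cdfc49_an.BZ.All

set_option autoImplicit false

namespace Pool.Agent.Results.MP_cdfc49_an.EveryOrder

open Pool.Agent.MP_cdfc49_an.BZ

/-- The conclusion of Q1 holds for every order `ν` of the interval exactly when `n = 0`. -/
theorem result (n s : ℕ) (hs : 1 ≤ s) :
    (∀ ν : ℝ, (n : ℝ) - 2 * (s : ℝ) - 1 < ν → ν < (n : ℝ) - 2 * (s : ℝ) → Good n s ν) ↔
      n = 0 :=
  final_all n s hs

end Pool.Agent.Results.MP_cdfc49_an.EveryOrder
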