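import Mathlib
import Pool.Agent.MP_cdfc49_an.BZ.Fin

set_option autoImplicit false

namespace Pool.Agent.Results.MP_cdfc49_an.SomeOrder

open Pool.Agent.MP_cdfc49_an.BZ

/-- The conclusion of Q1 holds for at least one order `ν` of the interval exactly when
`n ≤ 2` or `s = 1`. -/
theorem result (n s : ℕ) (hs : 1 ≤ s) :
    (∃ ν : ℝ, (n : ℝ) - 2 * (s : ℝ) - 1 < ν ∧ ν < (n : ℝ) - 2 * (s : ℝ) ∧ Good n s ν) ↔
      (n ≤ 2 ∨ s = 1) :=
  final n s hs

end Pool.Agent.Results.MP_cdfc49_an.SomeOrder
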