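import Mathlib
import Pool.Agent.MP_cdfc49_an.BZ.T6

set_option autoImplicit false

namespace Pool.Agent.Results.MP_cdfc49_an.TrueCount

open Pool.Agent.MP_cdfc49_an.BZ

/-- For every non-integer order `ν` the number of non-real zeros of the `n`-th derivative of the
Bessel function `J_ν` is `(1 + 2 / (e π) + o(1)) n`. -/
theorem result (ν : ℝ) (hν : ∀ k : ℤ, ν ≠ (k : ℝ)) :
    ∃ N : ℕ → ℕ, (∀ n : ℕ, zeroCount {z : ℂ | z.im ≠ 0} (G ν n) = (N n : ℕ∞)) ∧
      Filter.Tendsto (fun n : ℕ => (N n : ℝ) / (n : ℝ)) Filter.atTop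
        (nhds (1 + 2 / (Real.exp 1 * Real.pi))) :=
  final_count hν

end Pool.Agent.Results.MP_cdfc49_an.TrueCount
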